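import Pool.Agent.Lib.MP_054fa1_nt.Defs

namespace Pool.Agent.MP_054fa1_nt

open Finset

lemma P_succ (n : ℕ) : P (n + 1) = P n * ⟨1, ((n + 1 : ℕ) : ℤ)⟩ := by
  unfold P
  rw [Finset.prod_range_succ]

lemma P_zero : P 0 = 1 := by
  unfold P
  simp
  rfl

/-- the product of the next `m` factors -/
def Q (n m : ℕ) : GaussianInt := ∏ j ∈ Finset.range m, (⟨1, ((n + 1 + j : ℕ) : ℤ)⟩ : GaussianInt)

lemma P_add (n m : ℕ) : P (n + m) = P n * Q n m := by
  induction m with
  | zero => simp [Q]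
  | succ m ih =>
    rw [show n + (m + 1) = (n + m) + 1 from rfl, P_succ, ih]
    unfold Q
    rw [Finset.prod_range_succ, mul_assoc]
    congr 3
    push_cast
    ring

lemma cong (m ι : ℤ) (h : m ∣ ι ^ 2 + 1) (n : ℕ) :
    m ∣ (P n).re + ι * (P n).im - ∏ k ∈ Finset.range (n + 1), (1 + (k : ℤ) * ι) := by
  induction n with
  | zero => simp [P_zero]
  | succ n ih =>
    rw [P_succ, Finset.prod_range_succ]
    obtain ⟨c, hc⟩ := ih
    obtain ⟨d, hd⟩ := h
    set A := ∏ k ∈ Finset.range (n + 1), (1 + (k : ℤ) * ι) with hA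
    simp only [Zsqrtd.re_mul, Zsqrtd.im_mul]
    refine ⟨c * (1 + ((n + 1 : ℕ) : ℤ) * ι) - d * ((n + 1 : ℕ) : ℤ) * (P n).im, ?_⟩
    linear_combination (1 + ((n + 1 : ℕ) : ℤ) * ι) * hc - ((n + 1 : ℕ) : ℤ) * (P n).im * hd

/-- square roots of `-1` modulo every power of `p` -/
lemma exists_root (p : ℕ) (hp : p.Prime) (h4 : p % 4 = 1) (J : ℕ) :
    ∃ ι : ℤ, (p : ℤ) ^ J ∣ ι ^ 2 + 1 := by
  have := Fact.mk hp
  have hbase : ∃ ι : ℤ, (p : ℤ) ∣ ι ^ 2 + 1 := by
    have h1 : IsSquare (-1 : ZMod p) := by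
      rw [ZMod.exists_sq_eq_neg_one_iff]
      omega
    obtain ⟨y, hy⟩ := h1
    refine ⟨(y.val : ℤ), ?_⟩
    rw [← ZMod.intCast_zmod_eq_zero_iff_dvd]
    push_cast
    rw [ZMod.natCast_zmod_val, sq, ← hy]
    ring
  have h2 : ¬ (p : ℤ) ∣ 2 := by
    intro h
    have := Int.le_of_dvd (by norm_num) h
    have h5 : 5 ≤ p := by
      have := hp.two_le
      rcases Nat.lt_or_ge p 5 with h' | h'
      · interval_cases p <;> omega
      · exact h'
    omega
  induction J with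
  | zero => exact ⟨0, by simp⟩
  | succ J ih =>
    rcases Nat.eq_zero_or_pos J with rfl | hJ
    · obtain ⟨ι, h⟩ := hbase
      exact ⟨ι, by simpa using h⟩
    · obtain ⟨ι, s, hs⟩ := ih
      have hι : ¬ (p : ℤ) ∣ ι := by
        intro h
        have h3 : (p : ℤ) ∣ ι ^ 2 + 1 := by
          rw [hs]
          exact Dvd.dvd.mul_right (dvd_pow_self _ (by omega)) _
        have h4 : (p : ℤ) ∣ 1 := by
          have := dvd_sub h3 (Dvd.dvd.mul_left h ι)
          have e : ι ^ 2 + 1 - ι * ι = 1 := by ring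
          rwa [e] at this
        have := Int.le_of_dvd one_pos h4
        have := hp.two_le
        omega
      have hco : IsCoprime (p : ℤ) (2 * ι) := by
        have hpZ : Prime (p : ℤ) := Nat.prime_iff_prime_int.mp hp
        refine (Prime.coprime_iff_not_dvd hpZ).mpr ?_
        intro h
        rcases hpZ.dvd_or_dvd h with h | h
        · exact h2 h
        · exact hι h
      obtain ⟨u, v, huv⟩ := hco
      -- u * p + v * (2 * ι) = 1
      refine ⟨ι + (-(s * v)) * (p : ℤ) ^ J, ?_⟩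
      obtain ⟨K, hK⟩ : ∃ K, J = K + 1 := ⟨J - 1, by omega⟩
      refine ⟨s * u + (s * v) ^ 2 * (p : ℤ) ^ K, ?_⟩
      have e1 : (p : ℤ) ^ J = (p : ℤ) ^ K * p := by rw [hK, pow_succ]
      have e2 : (p : ℤ) ^ (J + 1) = (p : ℤ) ^ K * p * p := by rw [pow_succ, e1]
      rw [e2]
      rw [e1] at hs ⊢
      linear_combination hs - (p : ℤ) ^ K * p * s * huv

end Pool.Agent.MP_054fa1_nt
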