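import Pool.Agent.Lib.MP_054fa1_nt.Pair

namespace Pool.Agent.MP_054fa1_nt

open Finset

variable {p : ℕ}

lemma log_p_ge (h5 : 5 ≤ p) : (1.386 : ℝ) ≤ Real.log p := by
  have h1 : Real.log 4 = 2 * Real.log 2 := by
    rw [show (4 : ℝ) = 2 ^ 2 by norm_num, Real.log_pow]; norm_num
  have h2 := Real.log_two_gt_d9
  have h3 : Real.log 4 ≤ Real.log p := by
    apply Real.log_le_log (by norm_num)
    have : (5 : ℝ) ≤ p := by exact_mod_cast h5
    linarith
  linarith

lemma log_n_ge (n : ℕ) (hn : 2 ≤ n) : (0.693 : ℝ) ≤ Real.log n := by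
  have h2 := Real.log_two_gt_d9
  have h3 : Real.log 2 ≤ Real.log n := by
    apply Real.log_le_log (by norm_num)
    exact_mod_cast hn
  linarith

lemma L_le (hp : p.Prime) (h5 : 5 ≤ p) (n : ℕ) (hn : 2 ≤ n) :
    (Nat.log p (n ^ 2 + 1) : ℝ) * 1.386 ≤ 3 * Real.log n := by
  have h1 : p ^ (Nat.log p (n ^ 2 + 1)) ≤ n ^ 3 := by
    refine (Nat.pow_log_le_self p (by positivity)).trans ?_
    nlinarith [sq_nonneg (n - 1 : ℤ), mul_le_mul' hn hn]
  have h2 : (Nat.log p (n ^ 2 + 1) : ℝ) * Real.log p ≤ 3 * Real.log n := by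
    rw [← Real.log_pow, show (3 : ℝ) * Real.log n = Real.log ((n : ℝ) ^ 3) by rw [Real.log_pow]; norm_num]
    apply Real.log_le_log
    · have := hp.pos
      positivity
    · exact_mod_cast h1
  have h3 := log_p_ge h5
  have h4 : (0 : ℝ) ≤ Nat.log p (n ^ 2 + 1) := by positivity
  nlinarith

lemma er_le (hp : p.Prime) (h5 : 5 ≤ p) (n : ℕ) (hn : 2 ≤ n) :
    er p n ≤ 6 * Real.log n ∧ er p n + 1 ≤ 8 * Real.log n := by
  have h1 := L_le hp h5 n hn
  have h2 := log_n_ge n hn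
  unfold er
  constructor <;> nlinarith

open Classical in
lemma block (hp : p.Prime) (h4 : p % 4 = 1) (N : ℕ) (hN : 1 ≤ N) (M : ℝ) (hM : 0 < M) :
    (((Ioc N (2 * N)).filter fun n : ℕ => a n = 0 ∨
      (n : ℝ) / (p - 1) + 8 * Real.log n + M < padicValInt p (a n)).card : ℝ) ≤
      N * Real.log (2 * N + 1) / (M * Real.log p) + 1 := by
  have := Fact.mk hp
  have h5 := five_le hp h4
  have hlp := log_p_ge h5
  have hp1 : (0 : ℝ) < (p : ℝ) - 1 := by
    have : (5 : ℝ) ≤ p := by exact_mod_cast h5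
    linarith
  have hlN : 0 < Real.log (2 * N + 1) := by
    apply Real.log_pos
    have : (1 : ℝ) ≤ N := by exact_mod_cast hN
    linarith
  have hg : 0 < M * Real.log p / Real.log (2 * N + 1) := by positivity
  have key := spaced ((Ioc N (2 * N)).filter fun n : ℕ => a n = 0 ∨
      (n : ℝ) / (p - 1) + 8 * Real.log n + M < padicValInt p (a n)) N
      (M * Real.log p / Real.log (2 * N + 1)) hg ?_ ?_
  · refine key.trans (le_of_eq ?_)
    congr 1
    field_simp
  · intro x hx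
    rw [mem_filter, mem_Ioc] at hx
    exact hx.1
  · intro x hx y hy hxy
    rw [mem_filter, mem_Ioc] at hx hy
    obtain ⟨⟨hx1, hx2⟩, hx3⟩ := hx
    obtain ⟨⟨hy1, hy2⟩, hy3⟩ := hy
    have hlogx : 0 ≤ Real.log x := Real.log_natCast_nonneg x
    set T : ℝ := (x : ℝ) / (p - 1) + 8 * Real.log x + M with hT
    have hT0 : 0 ≤ T := by positivity
    set E := ⌊T⌋₊ with hE
    have hE1 : (E : ℝ) ≤ T := Nat.floor_le hT0
    have hE2 : T < E + 1 := Nat.lt_floor_add_one T
    have hEx : (p : ℤ) ^ E ∣ a x := by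
      rw [padicValInt_dvd_iff]
      rcases hx3 with h | h
      · exact Or.inl h
      · right
        have : (E : ℝ) < padicValInt p (a x) := hE1.trans_lt h
        exact_mod_cast this.le
    have hTy : T ≤ (y : ℝ) / (p - 1) + 8 * Real.log y + M := by
      have h1 : (x : ℝ) ≤ y := by exact_mod_cast hxy.le
      have h2 : (0 : ℝ) < x := by
        have : 0 < x := by omega
        exact_mod_cast this
      have h3 : (x : ℝ) / (p - 1) ≤ y / (p - 1) := by gcongr
      have h4 : Real.log x ≤ Real.log y := Real.log_le_log h2 h1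
      rw [hT]; linarith
    have hEy : (p : ℤ) ^ E ∣ a y := by
      rw [padicValInt_dvd_iff]
      rcases hy3 with h | h
      · exact Or.inl h
      · right
        have : (E : ℝ) < padicValInt p (a y) := by linarith
        exact_mod_cast this.le
    have her := (er_le hp h5 x (by omega)).2
    have hpair := pair hp h4 x y E hxy (by omega) hEx hEy (by linarith)
    have h6 : M * Real.log p ≤ ((y : ℝ) - x) * Real.log (y + 1) := by
      refine le_trans ?_ hpair
      apply mul_le_mul_of_nonneg_right _ (by linarith)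
      linarith
    have h7 : Real.log (y + 1) ≤ Real.log (2 * N + 1) := by
      apply Real.log_le_log (by positivity)
      have : (y : ℝ) ≤ 2 * N := by exact_mod_cast hy2
      linarith
    have h8 : (0 : ℝ) ≤ (y : ℝ) - x := by
      have : (x : ℝ) ≤ y := by exact_mod_cast hxy.le
      linarith
    rw [div_le_iff₀ hlN]
    exact h6.trans (mul_le_mul_of_nonneg_left h7 h8)

/-- number of dyadic blocks -/
lemma K_le (N : ℕ) (hN : 2 ≤ N) : ((Nat.log 2 N + 1 : ℕ) : ℝ) ≤ 3 * Real.log N := by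
  have h1 : 2 ^ Nat.log 2 N ≤ N := Nat.pow_log_le_self 2 (by omega)
  have h2 : (Nat.log 2 N : ℝ) * Real.log 2 ≤ Real.log N := by
    rw [← Real.log_pow]
    apply Real.log_le_log (by positivity)
    exact_mod_cast h1
  have h3 := log_n_ge N hN
  have h4 := Real.log_two_gt_d9
  have h5 : (0 : ℝ) ≤ Nat.log 2 N := by positivity
  push_cast
  nlinarith

lemma mem_block (N n : ℕ) (hn : 2 ≤ n) (hnN : n ≤ N) :
    ∃ i ∈ range (Nat.log 2 N + 1), n ∈ Ioc (2 ^ i) (2 * 2 ^ i) := by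
  refine ⟨Nat.log 2 (n - 1), ?_, ?_⟩
  · rw [mem_range, Nat.lt_succ_iff]
    exact Nat.log_mono_right (by omega)
  · rw [mem_Ioc]
    have h1 : 2 ^ Nat.log 2 (n - 1) ≤ n - 1 := Nat.pow_log_le_self 2 (by omega)
    have h2 : n - 1 < 2 ^ (Nat.log 2 (n - 1) + 1) := Nat.lt_pow_succ_log_self (by norm_num) _
    rw [pow_succ] at h2
    omega

lemma pow_le_of_mem (N i : ℕ) (hN : 2 ≤ N) (hi : i ∈ range (Nat.log 2 N + 1)) :
    (2 : ℝ) ^ i ≤ N ∧ Real.log (2 * (2 : ℝ) ^ i + 1) ≤ 3 * Real.log N := by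
  rw [mem_range, Nat.lt_succ_iff] at hi
  have h1 : 2 ^ i ≤ N := (Nat.pow_le_pow_right (by norm_num) hi).trans (Nat.pow_log_le_self 2 (by omega))
  have h2 : (2 : ℝ) ^ i ≤ N := by exact_mod_cast h1
  refine ⟨h2, ?_⟩
  have hN2 : (2 : ℝ) ≤ N := by exact_mod_cast hN
  rw [show (3 : ℝ) * Real.log N = Real.log ((N : ℝ) ^ 3) by rw [Real.log_pow]; norm_num]
  apply Real.log_le_log (by positivity)
  nlinarith [mul_le_mul hN2 hN2 (by norm_num) (by linarith)]

lemma sum_pow_le (N : ℕ) (hN : 2 ≤ N) : ∑ i ∈ range (Nat.log 2 N + 1), (2 : ℝ) ^ i ≤ 2 * N := by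
  have h1 : 2 ^ Nat.log 2 N ≤ N := Nat.pow_log_le_self 2 (by omega)
  have h2 : (2 : ℝ) ^ Nat.log 2 N ≤ N := by exact_mod_cast h1
  rw [geom_sum_eq (by norm_num), pow_succ]
  linarith

open Classical in
lemma count_M (hp : p.Prime) (h4 : p % 4 = 1) (N : ℕ) (hN : 2 ≤ N) (M : ℝ) (hM : 0 < M) :
    (({n : ℕ | 2 ≤ n ∧ n ≤ N ∧ (a n = 0 ∨ (n : ℝ) / (p - 1) + 8 * Real.log n + M <
      padicValInt p (a n))}.ncard : ℕ) : ℝ) ≤ 6 * (Real.log N + N * Real.log N / M) := by
  have h5 := five_le hp h4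
  have hlp := log_p_ge h5
  set B : ℕ → Finset ℕ := fun i => (Ioc (2 ^ i) (2 * 2 ^ i)).filter fun n : ℕ => a n = 0 ∨
      (n : ℝ) / (p - 1) + 8 * Real.log n + M < padicValInt p (a n) with hB
  have hsub : {n : ℕ | 2 ≤ n ∧ n ≤ N ∧ (a n = 0 ∨ (n : ℝ) / (p - 1) + 8 * Real.log n + M <
      padicValInt p (a n))} ⊆ ((range (Nat.log 2 N + 1)).biUnion B : Finset ℕ) := by
    rintro n ⟨h1, h2, h3⟩
    obtain ⟨i, hi, hi2⟩ := mem_block N n h1 h2
    rw [mem_coe, mem_biUnion]
    exact ⟨i, hi, mem_filter.mpr ⟨hi2, h3⟩⟩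
  have h6 := Set.ncard_le_ncard hsub (Finset.finite_toSet _)
  rw [Set.ncard_coe_finset] at h6
  have h7 := h6.trans card_biUnion_le
  have h8 : ∀ i ∈ range (Nat.log 2 N + 1), ((B i).card : ℝ) ≤
      (2 : ℝ) ^ i * (3 * Real.log N / (M * 1.386)) + 1 := by
    intro i hi
    have h9 := block hp h4 (2 ^ i) (Nat.one_le_two_pow) M hM
    push_cast at h9
    refine h9.trans ?_
    obtain ⟨_, h11⟩ := pow_le_of_mem N i hN hi
    have h12 := log_n_ge N hN
    gcongr
    rw [mul_div_assoc]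
    gcongr
  have h13 : (((range (Nat.log 2 N + 1)).biUnion B).card : ℝ) ≤
      2 * N * (3 * Real.log N / (M * 1.386)) + 3 * Real.log N := by
    calc (((range (Nat.log 2 N + 1)).biUnion B).card : ℝ) ≤
          ((∑ i ∈ range (Nat.log 2 N + 1), (B i).card : ℕ) : ℝ) := by exact_mod_cast card_biUnion_le
      _ = ∑ i ∈ range (Nat.log 2 N + 1), ((B i).card : ℝ) := by push_cast; rfl
      _ ≤ ∑ i ∈ range (Nat.log 2 N + 1), ((2 : ℝ) ^ i * (3 * Real.log N / (M * 1.386)) + 1) :=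
          sum_le_sum h8
      _ = (∑ i ∈ range (Nat.log 2 N + 1), (2 : ℝ) ^ i) * (3 * Real.log N / (M * 1.386)) +
          ((Nat.log 2 N + 1 : ℕ) : ℝ) := by
          rw [sum_add_distrib, ← sum_mul]; simp
      _ ≤ _ := by
          have h12 := log_n_ge N hN
          have := sum_pow_le N hN
          have := K_le N hN
          gcongr
  have h14 : (({n : ℕ | 2 ≤ n ∧ n ≤ N ∧ (a n = 0 ∨ (n : ℝ) / (p - 1) + 8 * Real.log n + M <
      padicValInt p (a n))}.ncard : ℕ) : ℝ) ≤ (((range (Nat.log 2 N + 1)).biUnion B).card : ℝ) := by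
    exact_mod_cast h6
  refine h14.trans (h13.trans ?_)
  have h12 := log_n_ge N hN
  have h15 : (0 : ℝ) ≤ N * Real.log N / M := by positivity
  have h16 : 2 * (N : ℝ) * (3 * Real.log N / (M * 1.386)) = (6 / 1.386) * (N * Real.log N / M) := by
    field_simp
    norm_num
  rw [h16]
  nlinarith

open Classical in
lemma count_eps (hp : p.Prime) (h4 : p % 4 = 1) (ε : ℝ) (hε : 0 < ε) :
    ∃ C : ℝ, ∀ N : ℕ, 2 ≤ N → (({n : ℕ | 1 ≤ n ∧ n ≤ N ∧
      ε ≤ |((p : ℝ) - 1) * padicValInt p (a n) / n - 1|}.ncard : ℕ) : ℝ) ≤ C * Real.log N ^ 2 := by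
  have h5 := five_le hp h4
  have hlp := log_p_ge h5
  have hp1 : (4 : ℝ) ≤ (p : ℝ) - 1 := by
    have : (5 : ℝ) ≤ p := by exact_mod_cast h5
    linarith
  -- threshold
  obtain ⟨n0, hn0⟩ : ∃ n0 : ℕ, ∀ n : ℕ, n0 ≤ n → Real.log n < ε / (32 * ((p : ℝ) - 1)) * n := by
    have h1 : Filter.Tendsto (fun n : ℕ => Real.log n / n) Filter.atTop (nhds 0) := by
      have := (Real.isLittleO_log_id_atTop.tendsto_div_nhds_zero).comp tendsto_natCast_atTop_atTop
      simpa [Function.comp_def] using this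
    have h2 : (0 : ℝ) < ε / (32 * ((p : ℝ) - 1)) := by positivity
    have h3 := (h1.eventually (gt_mem_nhds h2)).and (Filter.eventually_gt_atTop 0)
    obtain ⟨n0, h⟩ := Filter.eventually_atTop.mp h3
    refine ⟨n0, fun n hn => ?_⟩
    obtain ⟨h4, h5⟩ := h n hn
    rwa [div_lt_iff₀ (by exact_mod_cast h5)] at h4
  set B : ℕ → Finset ℕ := fun i => (Ioc (2 ^ i) (2 * 2 ^ i)).filter fun n : ℕ => a n = 0 ∨
      (n : ℝ) / (p - 1) + 8 * Real.log n + (ε * 2 ^ i / (4 * ((p : ℝ) - 1))) < padicValInt p (a n) with hB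
  set c : ℝ := 3 * (4 * ((p : ℝ) - 1)) / (ε * 1.386) with hc
  refine ⟨(n0 + 2) * 4 + 3 * (c + 2), fun N hN => ?_⟩
  have hsub : {n : ℕ | 1 ≤ n ∧ n ≤ N ∧ ε ≤ |((p : ℝ) - 1) * padicValInt p (a n) / n - 1|} ⊆
      (range (n0 + 2) ∪ (range (Nat.log 2 N + 1)).biUnion B : Finset ℕ) := by
    rintro n ⟨h1, h2, h3⟩
    rw [mem_coe, mem_union]
    by_cases h : n < n0 + 2
    · exact Or.inl (mem_range.mpr h)
    right
    push Not at h
    obtain ⟨i, hi, hi2⟩ := mem_block N n (by omega) h2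
    rw [mem_biUnion]
    refine ⟨i, hi, mem_filter.mpr ⟨hi2, ?_⟩⟩
    by_cases ha : a n = 0
    · exact Or.inl ha
    right
    have hlow := key_lower hp h4 n ha
    have her := (er_le hp h5 n (by omega)).1
    have hlogn := hn0 n (by omega)
    have hnpos : (0 : ℝ) < n := by
      have : 0 < n := by omega
      exact_mod_cast this
    have hp1' : (0 : ℝ) < (p : ℝ) - 1 := by linarith
    set ν : ℝ := ((padicValInt p (a n) : ℕ) : ℝ) with hν
    -- lower side is impossible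
    have h6 : (n : ℝ) / (p - 1) - 6 * Real.log n ≤ ν := by linarith
    have h7 : ε / (32 * ((p : ℝ) - 1)) * n = (ε * n / (p - 1)) / 32 := by
      field_simp
    rw [h7] at hlogn
    set X : ℝ := (n : ℝ) / (p - 1) with hX
    have hXpos : 0 < X := by positivity
    have h8 : ε * (n : ℝ) / (p - 1) = ε * X := by rw [hX]; ring
    rw [h8] at hlogn
    have h9 : ((p : ℝ) - 1) * ν / n = ν / X := by
      rw [hX]; field_simp
    rw [h9] at h3
    have h10 : ε * X ≤ |ν - X| := by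
      have : ν / X - 1 = (ν - X) / X := by field_simp
      rw [this, abs_div, abs_of_pos hXpos, le_div_iff₀ hXpos] at h3
      exact h3
    have h11 : ν - X = |ν - X| := by
      rcases le_or_gt 0 (ν - X) with h | h
      · exact (abs_of_nonneg h).symm
      · exfalso
        rw [abs_of_neg h] at h10
        nlinarith
    have h12 : (ε * 2 ^ i / (4 * ((p : ℝ) - 1))) ≤ ε * X / 4 := by
      rw [mem_Ioc] at hi2
      have h13 : ((2 : ℝ) ^ i) ≤ n := by exact_mod_cast hi2.1.le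
      have h14 : ε * X / 4 = ε * n / (4 * ((p : ℝ) - 1)) := by rw [hX]; field_simp
      rw [h14]
      gcongr
    have : 0 < ε * X := by positivity
    linarith
  have h6 := Set.ncard_le_ncard hsub (Finset.finite_toSet _)
  rw [Set.ncard_coe_finset] at h6
  have h12 := log_n_ge N hN
  have h8 : ∀ i ∈ range (Nat.log 2 N + 1), ((B i).card : ℝ) ≤ c * Real.log N + 1 := by
    intro i hi
    have hMi : 0 < ε * 2 ^ i / (4 * ((p : ℝ) - 1)) := by
      have : (0 : ℝ) < (p : ℝ) - 1 := by linarith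
      positivity
    have h9 := block hp h4 (2 ^ i) (Nat.one_le_two_pow) _ hMi
    push_cast at h9
    refine h9.trans ?_
    obtain ⟨_, h11⟩ := pow_le_of_mem N i hN hi
    have hp1' : (0 : ℝ) < (p : ℝ) - 1 := by linarith
    have h10 : (2 : ℝ) ^ i * Real.log (2 * 2 ^ i + 1) / (ε * 2 ^ i / (4 * ((p : ℝ) - 1)) * Real.log p) =
        Real.log (2 * 2 ^ i + 1) * (4 * ((p : ℝ) - 1)) / (ε * Real.log p) := by
      have : Real.log p ≠ 0 := by linarith
      field_simp
    rw [h10]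
    have h14 : c * Real.log N = (3 * Real.log N) * (4 * ((p : ℝ) - 1)) / (ε * 1.386) := by
      rw [hc]; ring
    rw [h14]
    gcongr
  have h13 : (((range (n0 + 2) ∪ (range (Nat.log 2 N + 1)).biUnion B).card : ℕ) : ℝ) ≤
      (n0 + 2) + 3 * Real.log N * (c * Real.log N + 1) := by
    have h15 : (((range (Nat.log 2 N + 1)).biUnion B).card : ℝ) ≤
        3 * Real.log N * (c * Real.log N + 1) := by
      calc (((range (Nat.log 2 N + 1)).biUnion B).card : ℝ) ≤
          ((∑ i ∈ range (Nat.log 2 N + 1), (B i).card : ℕ) : ℝ) := by exact_mod_cast card_biUnion_le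
      _ = ∑ i ∈ range (Nat.log 2 N + 1), ((B i).card : ℝ) := by push_cast; rfl
      _ ≤ ∑ i ∈ range (Nat.log 2 N + 1), (c * Real.log N + 1) := sum_le_sum h8
      _ = ((Nat.log 2 N + 1 : ℕ) : ℝ) * (c * Real.log N + 1) := by simp; ring
      _ ≤ _ := by
          have hp1' : (0 : ℝ) < (p : ℝ) - 1 := by linarith
          have hc0 : 0 ≤ c := by positivity
          apply mul_le_mul_of_nonneg_right (K_le N hN)
          have : 0 ≤ c * Real.log N := mul_nonneg hc0 (by linarith)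
          linarith
    calc (((range (n0 + 2) ∪ (range (Nat.log 2 N + 1)).biUnion B).card : ℕ) : ℝ) ≤
        (((range (n0 + 2)).card + ((range (Nat.log 2 N + 1)).biUnion B).card : ℕ) : ℝ) := by
          exact_mod_cast card_union_le _ _
      _ ≤ _ := by
          push_cast
          rw [card_range]
          push_cast
          linarith
  have h14 : (({n : ℕ | 1 ≤ n ∧ n ≤ N ∧ ε ≤ |((p : ℝ) - 1) * padicValInt p (a n) / n - 1|}.ncard : ℕ) : ℝ)
      ≤ (((range (n0 + 2) ∪ (range (Nat.log 2 N + 1)).biUnion B).card : ℕ) : ℝ) := by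
    exact_mod_cast h6
  refine h14.trans (h13.trans ?_)
  have h15 : (1 : ℝ) ≤ 4 * Real.log N ^ 2 := by nlinarith
  have h16 : Real.log N ≤ 2 * Real.log N ^ 2 := by nlinarith
  have h17 : (0 : ℝ) ≤ (n0 : ℝ) + 2 := by positivity
  nlinarith

end Pool.Agent.MP_054fa1_nt
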