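import Mathlib

namespace Pool.Agent.MP_054fa1_nt

/-- The Gaussian integer `∏_{k=0}^n (1 + k i)`. -/
def P (n : ℕ) : GaussianInt := ∏ k ∈ Finset.range (n + 1), (⟨1, (k : ℤ)⟩ : GaussianInt)

/-- `a n` is the imaginary part of `∏_{k=0}^n (1 + k i)`. -/
def a (n : ℕ) : ℤ := (P n).im

end Pool.Agent.MP_054fa1_nt
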