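import Pool.Agent.Lib.MP_054fa1_nt.Basic

namespace Pool.Agent.MP_054fa1_nt

open Finset

/-- real coordinates of `∏ (k - i)` -/
def uv (n : ℕ) : ℕ → ℤ × ℤ
  | 0 => (1, 0)
  | m + 1 => ((uv n m).1 * (n + 1 + m) - (uv n m).2, (uv n m).1 + (uv n m).2 * (n + 1 + m))

lemma Q_eq (n m : ℕ) : Q n m = (⟨0, 1⟩ : GaussianInt) ^ m * ⟨(uv n m).1, -(uv n m).2⟩ := by
  induction m with
  | zero =>
    simp [Q, uv]
    rfl
  | succ m ih =>
    have h1 : Q n (m + 1) = Q n m * ⟨1, ((n + 1 + m : ℕ) : ℤ)⟩ := by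
      unfold Q
      rw [Finset.prod_range_succ]
    rw [h1, ih, pow_succ, mul_assoc, mul_assoc]
    congr 1
    ext
    · simp [uv]
    · simp [uv]
      ring

lemma uv_pos (n : ℕ) (hn : 1 ≤ n) (m : ℕ) (hm : m < n) :
    0 < (uv n m).1 ∧ 0 ≤ (uv n m).2 ∧ (uv n m).2 * (n - m) ≤ (uv n m).1 * m ∧
      (1 ≤ m → 0 < (uv n m).2) := by
  induction m with
  | zero => simp [uv]
  | succ m ih =>
    obtain ⟨h1, h2, h3, h4⟩ := ih (by omega)
    set u := (uv n m).1 with hu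
    set v := (uv n m).2 with hv
    have e1 : (uv n (m + 1)).1 = u * (n + 1 + m) - v := rfl
    have e2 : (uv n (m + 1)).2 = u + v * (n + 1 + m) := rfl
    have hmn : (m : ℤ) + 1 < n := by exact_mod_cast hm
    have hm0 : (0 : ℤ) ≤ m := by positivity
    have hs : (2 : ℤ) ≤ (n : ℤ) - m := by linarith
    have hvu : v ≤ u * m := by nlinarith
    have hu1 : 0 < u * (n + 1 + m) - v := by nlinarith
    refine ⟨by rw [e1]; exact hu1, by rw [e2]; positivity, ?_, fun _ => by rw [e2]; positivity⟩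
    rw [e1, e2]
    push_cast
    -- (u + v k)(s - 1) ≤ (u k - v)(m + 1), where s = n - m, k = n + 1 + m, v s ≤ u m
    set s : ℤ := (n : ℤ) - m with hs'
    have hk : (n : ℤ) + 1 + m = s + 2 * m + 1 := by rw [hs']; ring
    rw [hk]
    have key : s * ((u * (s + 2 * m + 1) - v) * (m + 1) - (u + v * (s + 2 * m + 1)) * (n - (m + 1)))
        ≥ 0 := by
      have hn' : (n : ℤ) - (m + 1) = s - 1 := by rw [hs']; ring
      rw [hn']
      -- = s*u*[k(m+1) - (s-1)] - v s [ (m+1) + k (s-1)]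
      have hA : 0 ≤ (m + 1 : ℤ) + (s + 2 * m + 1) * (s - 1) := by nlinarith
      have hB : v * s * ((m + 1 : ℤ) + (s + 2 * m + 1) * (s - 1)) ≤
          u * m * ((m + 1 : ℤ) + (s + 2 * m + 1) * (s - 1)) :=
        mul_le_mul_of_nonneg_right (by linarith) hA
      have hC : 0 ≤ u * (s * ((s + 2 * m + 1) * (m + 1) - (s - 1)) -
          m * ((m + 1) + (s + 2 * m + 1) * (s - 1))) := by
        refine mul_nonneg h1.le ?_
        nlinarith [mul_nonneg hm0 hm0, mul_nonneg hm0 (by linarith : (0 : ℤ) ≤ s), mul_nonneg (mul_nonneg hm0 hm0) (by linarith : (0 : ℤ) ≤ s)]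
      nlinarith
    have hs0 : 0 < s := by linarith
    have := nonneg_of_mul_nonneg_right (a := s) (b := ((u * (s + 2 * m + 1) - v) * (m + 1) - (u + v * (s + 2 * m + 1)) * (n - (m + 1)))) key.le hs0
    linarith

lemma I_pow_mul_ne (m : ℕ) (z : GaussianInt) (hr : z.re ≠ 0) (hi : z.im ≠ 0) :
    ((⟨0, 1⟩ : GaussianInt) ^ m * z).re ≠ 0 ∧ ((⟨0, 1⟩ : GaussianInt) ^ m * z).im ≠ 0 := by
  induction m with
  | zero => simpa using ⟨hr, hi⟩
  | succ m ih =>
    rw [pow_succ', mul_assoc]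
    set w := (⟨0, 1⟩ : GaussianInt) ^ m * z
    simp [Zsqrtd.re_mul, Zsqrtd.im_mul]
    exact ⟨ih.2, ih.1⟩

/-- the imaginary part of a short product does not vanish -/
lemma Q_im_ne (n m : ℕ) (h1 : 1 ≤ m) (hm : m < n) : (Q n m).im ≠ 0 := by
  obtain ⟨hu, _, _, hv⟩ := uv_pos n (by omega) m hm
  rw [Q_eq]
  refine (I_pow_mul_ne m _ ?_ ?_).2
  · exact hu.ne'
  · have := hv h1
    simpa using this.ne'

lemma Q_norm_le (n m : ℕ) : (Q n m).re ^ 2 + (Q n m).im ^ 2 ≤ (((n + m + 1 : ℕ) : ℤ) ^ m) ^ 2 := by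
  have key : ∀ N : ℕ, ∀ m : ℕ, n + m ≤ N → (Q n m).re ^ 2 + (Q n m).im ^ 2 ≤ (((N + 1 : ℕ) : ℤ) ^ m) ^ 2 := by
    intro N m
    induction m with
    | zero => intro _; simp [Q]
    | succ m ih =>
      intro hN
      have h1 : Q n (m + 1) = Q n m * ⟨1, ((n + 1 + m : ℕ) : ℤ)⟩ := by
        unfold Q
        rw [Finset.prod_range_succ]
      have h2 := ih (by omega)
      rw [h1]
      simp only [Zsqrtd.re_mul, Zsqrtd.im_mul]
      set k : ℤ := ((n + 1 + m : ℕ) : ℤ) with hk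
      have hk0 : 0 ≤ k := by positivity
      have hkN : k + 1 ≤ ((N + 1 : ℕ) : ℤ) := by
        rw [hk]
        have : n + 1 + m + 1 ≤ N + 1 := by omega
        exact_mod_cast this
      have e : ((Q n m).re * 1 + -1 * (Q n m).im * k) ^ 2 + ((Q n m).re * k + (Q n m).im * 1) ^ 2
          = ((Q n m).re ^ 2 + (Q n m).im ^ 2) * (1 + k ^ 2) := by ring
      have e3 : (((N + 1 : ℕ) : ℤ) ^ (m + 1)) ^ 2 = (((N + 1 : ℕ) : ℤ) ^ m) ^ 2 * ((N + 1 : ℕ) : ℤ) ^ 2 := by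
        ring
      rw [e, e3]
      apply mul_le_mul h2 _ (by positivity) (by positivity)
      nlinarith
  exact key (n + m) m le_rfl

lemma Q_im_le (n m : ℕ) : |(Q n m).im| ≤ ((n + m + 1 : ℕ) : ℤ) ^ m := by
  apply abs_le_of_sq_le_sq _ (by positivity)
  have := Q_norm_le n m
  nlinarith [sq_nonneg (Q n m).re]

end Pool.Agent.MP_054fa1_nt
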