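import Pool.Agent.Lib.MP_054fa1_nt.Val

namespace Pool.Agent.MP_054fa1_nt

open Finset

variable {p : ℕ}

lemma five_le (hp : p.Prime) (h4 : p % 4 = 1) : 5 ≤ p := by
  have := hp.two_le
  rcases Nat.lt_or_ge p 5 with h' | h'
  · interval_cases p <;> omega
  · exact h'

/-- the error term -/
noncomputable def er (p n : ℕ) : ℝ := 2 * Nat.log p (n ^ 2 + 1) + 1

lemma exists_J (hp : p.Prime) (n E : ℕ) : ∃ J : ℕ, n ^ 2 + 1 < p ^ J ∧ E ≤ J ∧ n / (p - 1 : ℝ) + er p n < J := by
  have h2 := hp.two_le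
  refine ⟨n ^ 2 + 2 + E + n + 2 * Nat.log p (n ^ 2 + 1) + 2, ?_, by omega, ?_⟩
  · exact lt_of_lt_of_le (by omega) (Nat.lt_pow_self hp.one_lt).le
  · unfold er
    have h3 : (1 : ℝ) ≤ (p : ℝ) - 1 := by
      have : (2 : ℝ) ≤ p := by exact_mod_cast h2
      linarith
    have h4 : (n : ℝ) / (p - 1) ≤ n := div_le_self (by positivity) h3
    push_cast
    have : (0 : ℝ) ≤ (n : ℝ) ^ 2 := by positivity
    have : (0 : ℝ) ≤ (E : ℝ) := by positivity
    linarith

lemma A_ne (hp : p.Prime) (h2 : 2 < p) {J : ℕ} {ι : ℤ} (h : (p : ℤ) ^ J ∣ ι ^ 2 + 1) {n : ℕ}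
    (hJ : n ^ 2 + 1 < p ^ J) : A ι n ≠ 0 := by
  have hJ1 : 1 ≤ J := by
    rcases Nat.eq_zero_or_pos J with h0 | h0
    · subst h0; simp at hJ
    · exact h0
  exact prod_ne_zero_iff.mpr fun k _ => factor_ne hp h2 hJ1 h k

/-- lower bound for all `n` -/
lemma key_lower (hp : p.Prime) (h4 : p % 4 = 1) (n : ℕ) (hn : a n ≠ 0) :
    (n : ℝ) / (p - 1) - er p n ≤ padicValInt p (a n) := by
  have := Fact.mk hp
  have h5 := five_le hp h4
  obtain ⟨J, hJ, _, hJ3⟩ := exists_J hp n 0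
  obtain ⟨ι, hι⟩ := exists_root p hp h4 J
  have hι' : (p : ℤ) ^ J ∣ (-ι) ^ 2 + 1 := by simpa using hι
  have hA := val_A_bound hp (by omega) hι hJ
  have hB := val_A_bound hp (by omega) hι' hJ
  rw [abs_le] at hA hB
  set vA := padicValInt p (A ι n) with hvA
  set vB := padicValInt p (A (-ι) n) with hvB
  set w := min vA vB with hw
  have hwJ : w ≤ J := by
    have h6 : (vA : ℝ) < J := by
      unfold er at hJ3
      linarith [hA.2]
    have h7 : vA < J := by exact_mod_cast h6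
    exact (min_le_left _ _).trans h7.le
  have h6 : (p : ℤ) ^ w ∣ A ι n := (pow_dvd_pow _ (min_le_left _ _)).trans (padicValInt_dvd _)
  have h7 : (p : ℤ) ^ w ∣ A (-ι) n := (pow_dvd_pow _ (min_le_right _ _)).trans (padicValInt_dvd _)
  have h8 : (p : ℤ) ^ w ∣ (P n).re + ι * (P n).im - A ι n := (pow_dvd_pow _ hwJ).trans (cong _ ι hι n)
  have h9 : (p : ℤ) ^ w ∣ (P n).re + (-ι) * (P n).im - A (-ι) n :=
    (pow_dvd_pow _ hwJ).trans (cong _ (-ι) hι' n)
  have h10 : (p : ℤ) ^ w ∣ (2 * ι) * a n := by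
    have := dvd_sub (dvd_add h8 h6) (dvd_add h9 h7)
    have e : (P n).re + ι * (P n).im - A ι n + A ι n - ((P n).re + (-ι) * (P n).im - A (-ι) n + A (-ι) n)
        = (2 * ι) * a n := by
      unfold a; ring
    rwa [e] at this
  have hpZ : Prime (p : ℤ) := Nat.prime_iff_prime_int.mp hp
  have hJ1 : 1 ≤ J := by
    rcases Nat.eq_zero_or_pos J with h0 | h0
    · subst h0; simp at hJ
    · exact h0
  have hco : IsCoprime ((p : ℤ) ^ w) (2 * ι) := by
    apply IsCoprime.pow_left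
    refine (Prime.coprime_iff_not_dvd hpZ).mpr ?_
    intro h
    rcases hpZ.dvd_or_dvd h with h | h
    · have := Int.le_of_dvd (by norm_num) h
      omega
    · have h3 : (p : ℤ) ∣ ι ^ 2 + 1 := (dvd_pow_self _ (by omega)).trans hι
      have h4 : (p : ℤ) ∣ 1 := by
        have := dvd_sub h3 (Dvd.dvd.mul_left h ι)
        have e : ι ^ 2 + 1 - ι * ι = 1 := by ring
        rwa [e] at this
      have := Int.le_of_dvd one_pos h4
      omega
  have h11 : (p : ℤ) ^ w ∣ a n := hco.dvd_of_dvd_mul_left h10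
  have h12 : w ≤ padicValInt p (a n) := by
    rcases (padicValInt_dvd_iff w (a n)).mp h11 with h | h
    · exact absurd h hn
    · exact h
  have h13 : (w : ℝ) ≤ padicValInt p (a n) := by exact_mod_cast h12
  unfold er
  rcases min_choice vA vB with h | h
  · have : (w : ℝ) = vA := by rw [hw, h]
    linarith [hA.1]
  · have : (w : ℝ) = vB := by rw [hw, h]
    linarith [hB.1]

/-- the real part is not too divisible if the imaginary part is -/
lemma re_val (hp : p.Prime) (h4 : p % 4 = 1) (n E : ℕ) (hE : (p : ℤ) ^ E ∣ a n)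
    (hE2 : (n : ℝ) / (p - 1) + er p n < E) :
    ∃ v : ℕ, (v : ℝ) ≤ n / (p - 1) + er p n ∧ ¬ (p : ℤ) ^ (v + 1) ∣ (P n).re := by
  have := Fact.mk hp
  have h5 := five_le hp h4
  obtain ⟨J, hJ, _, hJ3⟩ := exists_J hp n 0
  obtain ⟨ι, hι⟩ := exists_root p hp h4 J
  have hA := val_A_bound hp (by omega) hι hJ
  rw [abs_le] at hA
  refine ⟨padicValInt p (A ι n), by unfold er; linarith [hA.2], ?_⟩
  set v := padicValInt p (A ι n) with hv
  intro h
  have h1 : v + 1 ≤ E := by
    have : (v : ℝ) < E := by unfold er at hE2; linarith [hA.2]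
    have : v < E := by exact_mod_cast this
    omega
  have h2 : v + 1 ≤ J := by
    have : (v : ℝ) < J := by unfold er at hJ3; linarith [hA.2]
    have : v < J := by exact_mod_cast this
    omega
  have h6 : (p : ℤ) ^ (v + 1) ∣ A ι n := by
    have h7 := (pow_dvd_pow (p : ℤ) h2).trans (cong _ ι hι n)
    have h8 : (p : ℤ) ^ (v + 1) ∣ ι * (P n).im := Dvd.dvd.mul_left ((pow_dvd_pow _ h1).trans hE) _
    have := dvd_sub (dvd_add h h8) h7
    have e : (P n).re + ι * (P n).im - ((P n).re + ι * (P n).im -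
        ∏ k ∈ Finset.range (n + 1), (1 + (k : ℤ) * ι)) = A ι n := by unfold A; ring
    rwa [e] at this
  rcases (padicValInt_dvd_iff (v + 1) (A ι n)).mp h6 with h | h
  · exact A_ne hp (by omega) hι hJ h
  · omega

/-- the gap principle -/
lemma pair (hp : p.Prime) (h4 : p % 4 = 1) (n n' E : ℕ) (h1 : n < n') (h2 : n' < 2 * n)
    (hE : (p : ℤ) ^ E ∣ a n) (hE' : (p : ℤ) ^ E ∣ a n') (hE2 : (n : ℝ) / (p - 1) + er p n < E) :
    ((E : ℝ) - (n / (p - 1) + er p n)) * Real.log p ≤ ((n' : ℝ) - n) * Real.log (n' + 1) := by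
  have := Fact.mk hp
  have h5 := five_le hp h4
  obtain ⟨v, hv1, hv2⟩ := re_val hp h4 n E hE hE2
  obtain ⟨m, rfl⟩ : ∃ m, n' = n + m := ⟨n' - n, by omega⟩
  have hb := Q_im_ne n m (by omega) (by omega)
  have hx : (P n).re ≠ 0 := by
    intro h; rw [h] at hv2; exact hv2 (dvd_zero _)
  have h6 : (p : ℤ) ^ E ∣ (P n).re * (Q n m).im := by
    have e : a (n + m) = (P n).re * (Q n m).im + a n * (Q n m).re := by
      unfold a
      rw [P_add, Zsqrtd.im_mul]
    rw [e] at hE'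
    have := dvd_sub hE' (Dvd.dvd.mul_right hE (Q n m).re)
    simpa using this
  have h7 : E ≤ padicValInt p (P n).re + padicValInt p (Q n m).im := by
    rcases (padicValInt_dvd_iff E _).mp h6 with h | h
    · exact absurd h (mul_ne_zero hx hb)
    · rwa [padicValInt.mul hx hb] at h
  have h8 : padicValInt p (P n).re ≤ v := by
    by_contra h
    exact hv2 ((padicValInt_dvd_iff (v + 1) _).mpr (Or.inr (by omega)))
  set w := padicValInt p (Q n m).im with hw
  have h9 : (p : ℤ) ^ w ≤ ((n + m + 1 : ℕ) : ℤ) ^ m :=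
    (Int.le_of_dvd (abs_pos.mpr hb) ((dvd_abs _ _).mpr (padicValInt_dvd _))).trans (Q_im_le n m)
  have h10 : (p : ℝ) ^ w ≤ ((n + m + 1 : ℕ) : ℝ) ^ m := by exact_mod_cast h9
  have h11 : (w : ℝ) * Real.log p ≤ m * Real.log ((n + m + 1 : ℕ) : ℝ) := by
    rw [← Real.log_pow, ← Real.log_pow]
    exact Real.log_le_log (by positivity) h10
  have h12 : (E : ℝ) ≤ v + w := by
    have : E ≤ v + w := by omega
    exact_mod_cast this
  have hlog : 0 ≤ Real.log p := Real.log_natCast_nonneg p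
  push_cast at h11 ⊢
  calc ((E : ℝ) - (n / (p - 1) + er p n)) * Real.log p ≤ w * Real.log p :=
        mul_le_mul_of_nonneg_right (by linarith) hlog
    _ ≤ m * Real.log (n + m + 1) := h11
    _ = _ := by ring

lemma spaced (S : Finset ℕ) (N : ℕ) (g : ℝ) (hg : 0 < g) (hS : ∀ x ∈ S, N < x ∧ x ≤ 2 * N)
    (hsp : ∀ x ∈ S, ∀ y ∈ S, x < y → g ≤ (y : ℝ) - x) : (S.card : ℝ) ≤ N / g + 1 := by
  have h1 : S.card ≤ (range (⌊(N : ℝ) / g⌋₊ + 1)).card := by
    apply card_le_card_of_injOn (fun x : ℕ => ⌊((x : ℝ) - N) / g⌋₊)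
    · intro x hx
      obtain ⟨h1, h2⟩ := hS x hx
      have h3 : (x : ℝ) ≤ 2 * N := by exact_mod_cast h2
      simp only [coe_range, Set.mem_Iio, Nat.lt_succ_iff]
      apply Nat.floor_le_floor
      gcongr
      linarith
    · have key : ∀ x ∈ S, ∀ y ∈ S, x < y → ⌊((x : ℝ) - N) / g⌋₊ < ⌊((y : ℝ) - N) / g⌋₊ := by
        intro x hx y hy hxy
        have h3 := hsp x hx y hy hxy
        have h4 : 0 ≤ ((x : ℝ) - N) / g := by
          have : (N : ℝ) < x := by exact_mod_cast (hS x hx).1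
          apply div_nonneg (by linarith) hg.le
        have h5 : ((x : ℝ) - N) / g + 1 ≤ ((y : ℝ) - N) / g := by
          rw [div_add_one hg.ne']
          gcongr
          linarith
        calc ⌊((x : ℝ) - N) / g⌋₊ < ⌊((x : ℝ) - N) / g⌋₊ + 1 := Nat.lt_succ_self _
          _ = ⌊((x : ℝ) - N) / g + 1⌋₊ := (Nat.floor_add_one h4).symm
          _ ≤ _ := Nat.floor_le_floor h5
      intro x hx y hy hxy
      rcases lt_trichotomy x y with h | h | h
      · exact absurd hxy (key x hx y hy h).ne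
      · exact h
      · exact absurd hxy (key y hy x hx h).ne'
  rw [card_range] at h1
  calc (S.card : ℝ) ≤ ((⌊(N : ℝ) / g⌋₊ + 1 : ℕ) : ℝ) := by exact_mod_cast h1
    _ ≤ _ := by
      push_cast
      have := Nat.floor_le (show 0 ≤ (N : ℝ) / g by positivity)
      linarith

end Pool.Agent.MP_054fa1_nt
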