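import Pool.Agent.Lib.MP_054fa1_nt.Gap

namespace Pool.Agent.MP_054fa1_nt

open Finset

/-- the integer product `∏ (1 + k ι)` -/
def A (ι : ℤ) (n : ℕ) : ℤ := ∏ k ∈ Finset.range (n + 1), (1 + (k : ℤ) * ι)

lemma count_bound (r : ℕ) (hr : 0 < r) (ι : ℤ) (b : ℕ) :
    b / r ≤ ((range b).filter fun k : ℕ => (r : ℤ) ∣ (k : ℤ) - ι).card ∧
      ((range b).filter fun k : ℕ => (r : ℤ) ∣ (k : ℤ) - ι).card ≤ b / r + 1 := by
  have hr' : (0 : ℤ) < r := by exact_mod_cast hr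
  set v : ℕ := (ι % r).toNat with hv
  have hv' : (v : ℤ) = ι % r := Int.toNat_of_nonneg (Int.emod_nonneg _ hr'.ne')
  have h1 : ((range b).filter fun k : ℕ => (r : ℤ) ∣ (k : ℤ) - ι).card = b.count (· ≡ v [MOD r]) := by
    rw [Nat.count_eq_card_filter_range]
    congr 1
    apply filter_congr
    intro k _
    rw [← Int.natCast_modEq_iff, hv']
    constructor
    · intro h
      have h2 : (k : ℤ) ≡ ι [ZMOD r] := (Int.modEq_iff_dvd.mpr (by simpa using (dvd_neg.mpr h))) 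
      exact h2.trans (Int.mod_modEq ι r).symm
    · intro h
      have h2 : (k : ℤ) ≡ ι [ZMOD r] := h.trans (Int.mod_modEq ι r)
      have := Int.modEq_iff_dvd.mp h2
      have := dvd_neg.mpr this
      simpa using this
  rw [h1, Nat.count_modEq_card b hr]
  split_ifs <;> omega

variable {p : ℕ}

lemma val_card (hp : p.Prime) (x : ℤ) (hx : x ≠ 0) (L : ℕ) (hL : ∀ j, (p : ℤ) ^ j ∣ x → j ≤ L) :
    padicValInt p x = #{j ∈ Icc 1 L | (p : ℤ) ^ j ∣ x} := by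
  have := Fact.mk hp
  have h : {j ∈ Icc 1 L | (p : ℤ) ^ j ∣ x} = Icc 1 (padicValInt p x) := by
    ext j
    simp only [mem_filter, mem_Icc, padicValInt_dvd_iff, hx, false_or]
    constructor
    · rintro ⟨⟨h1, _⟩, h2⟩
      exact ⟨h1, h2⟩
    · rintro ⟨h1, h2⟩
      exact ⟨⟨h1, hL j ((padicValInt_dvd_iff j x).mpr (Or.inr h2))⟩, h2⟩
  rw [h]
  simp

lemma val_prod (hp : p.Prime) {s : Finset ℕ} (f : ℕ → ℤ) (hf : ∀ k ∈ s, f k ≠ 0) :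
    padicValInt p (∏ k ∈ s, f k) = ∑ k ∈ s, padicValInt p (f k) := by
  have := Fact.mk hp
  classical
  induction s using Finset.induction_on with
  | empty => simp
  | insert a s ha ih =>
    rw [prod_insert ha, sum_insert ha, padicValInt.mul (hf a (mem_insert_self a s)), ih]
    · intro k hk
      exact hf k (mem_insert_of_mem hk)
    · exact prod_ne_zero_iff.mpr fun k hk => hf k (mem_insert_of_mem hk)

lemma factor_ne (_hp : p.Prime) (h2 : 2 < p) {J : ℕ} (hJ : 1 ≤ J) {ι : ℤ} (h : (p : ℤ) ^ J ∣ ι ^ 2 + 1)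
    (k : ℕ) : 1 + (k : ℤ) * ι ≠ 0 := by
  intro h0
  have h1 : ι ∣ 1 := ⟨-k, by linarith⟩
  have h3 : ι ^ 2 = 1 := by
    rcases Int.isUnit_iff.mp (isUnit_of_dvd_one h1) with h | h <;> rw [h] <;> norm_num
  rw [h3] at h
  have h4 : (p : ℤ) ∣ 2 := (dvd_pow_self _ (by omega)).trans h
  have := Int.le_of_dvd (by norm_num) h4
  omega

lemma dvd_iff {J : ℕ} {ι : ℤ} (h : (p : ℤ) ^ J ∣ ι ^ 2 + 1) {j : ℕ} (hj : j ≤ J) (k : ℕ) :
    (p : ℤ) ^ j ∣ 1 + (k : ℤ) * ι ↔ (p : ℤ) ^ j ∣ (k : ℤ) - ι := by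
  have h' : (p : ℤ) ^ j ∣ ι ^ 2 + 1 := (pow_dvd_pow _ hj).trans h
  constructor
  · intro h1
    have h2 : (p : ℤ) ^ j ∣ k * (ι ^ 2 + 1) - ι * (1 + k * ι) :=
      dvd_sub (Dvd.dvd.mul_left h' _) (Dvd.dvd.mul_left h1 _)
    have e : (k : ℤ) * (ι ^ 2 + 1) - ι * (1 + k * ι) = k - ι := by ring
    rwa [e] at h2
  · intro h1
    have h2 : (p : ℤ) ^ j ∣ (ι ^ 2 + 1) + ι * (k - ι) := dvd_add h' (Dvd.dvd.mul_left h1 _)
    have e : (ι ^ 2 + 1) + ι * (k - ι) = 1 + (k : ℤ) * ι := by ring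
    rwa [e] at h2

lemma dvd_le (hp : p.Prime) {J : ℕ} {ι : ℤ} (h : (p : ℤ) ^ J ∣ ι ^ 2 + 1) {n : ℕ}
    (hJ : n ^ 2 + 1 < p ^ J) {k : ℕ} (hk : k ≤ n) {j : ℕ} (hj : (p : ℤ) ^ j ∣ 1 + (k : ℤ) * ι) :
    j ≤ Nat.log p (n ^ 2 + 1) := by
  have key : ∀ i ≤ J, (p : ℤ) ^ i ∣ 1 + (k : ℤ) * ι → p ^ i ≤ n ^ 2 + 1 := by
    intro i hi h1
    have h2 : (p : ℤ) ^ i ∣ (1 + k * ι) * (1 - k * ι) + k ^ 2 * (ι ^ 2 + 1) :=
      dvd_add (Dvd.dvd.mul_right h1 _) (Dvd.dvd.mul_left ((pow_dvd_pow _ hi).trans h) _)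
    have e : (1 + (k : ℤ) * ι) * (1 - k * ι) + k ^ 2 * (ι ^ 2 + 1) = ((k ^ 2 + 1 : ℕ) : ℤ) := by
      push_cast; ring
    rw [e] at h2
    have h3 : p ^ i ∣ k ^ 2 + 1 := by exact_mod_cast h2
    have h4 := Nat.le_of_dvd (by positivity) h3
    have h5 : k ^ 2 ≤ n ^ 2 := Nat.pow_le_pow_left hk 2
    omega
  rcases le_or_gt j J with hjJ | hjJ
  · exact Nat.le_log_of_pow_le hp.one_lt (key j hjJ hj)
  · exfalso
    have := key J le_rfl ((pow_dvd_pow _ hjJ.le).trans hj)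
    omega

/-- the valuation of `∏ (1 + k ι)` as a sum over levels -/
lemma val_A (hp : p.Prime) (h2 : 2 < p) {J : ℕ} {ι : ℤ} (h : (p : ℤ) ^ J ∣ ι ^ 2 + 1) {n : ℕ}
    (hJ : n ^ 2 + 1 < p ^ J) :
    padicValInt p (A ι n) = ∑ j ∈ Icc 1 (Nat.log p (n ^ 2 + 1)),
      ((range (n + 1)).filter fun k : ℕ => ((p : ℤ) ^ j) ∣ (k : ℤ) - ι).card := by
  have hJ1 : 1 ≤ J := by
    rcases Nat.eq_zero_or_pos J with h0 | h0
    · subst h0; simp at hJ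
    · exact h0
  have hLJ : Nat.log p (n ^ 2 + 1) < J := Nat.log_lt_of_lt_pow (by positivity) hJ
  unfold A
  rw [val_prod hp _ (fun k _ => factor_ne hp h2 hJ1 h k)]
  have h1 : ∀ k ∈ range (n + 1), padicValInt p (1 + (k : ℤ) * ι) =
      ∑ j ∈ Icc 1 (Nat.log p (n ^ 2 + 1)), if (p : ℤ) ^ j ∣ (k : ℤ) - ι then 1 else 0 := by
    intro k hk
    rw [val_card hp _ (factor_ne hp h2 hJ1 h k) (Nat.log p (n ^ 2 + 1))
      (fun j hj => dvd_le hp h hJ (by simpa [Nat.lt_succ_iff] using hk) hj), card_filter]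
    apply sum_congr rfl
    intro j hj
    rw [mem_Icc] at hj
    simp only [dvd_iff h (show j ≤ J by omega) k]
  rw [sum_congr rfl h1, sum_comm]
  apply sum_congr rfl
  intro j _
  rw [card_filter]

/-- geometric sum -/
lemma geom (hp : 2 ≤ p) (n L : ℕ) :
    ∑ j ∈ Icc 1 L, (n : ℝ) / (p : ℝ) ^ j = n / (p - 1) - n / ((p - 1) * (p : ℝ) ^ L) := by
  have hp' : (2 : ℝ) ≤ p := by exact_mod_cast hp
  have h1 : (p : ℝ) - 1 ≠ 0 := by linarith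
  have h0 : (p : ℝ) ≠ 0 := by linarith
  induction L with
  | zero => simp
  | succ L ih =>
    rw [sum_Icc_succ_top (by omega), ih]
    field_simp
    ring

/-- `ν_p(∏ (1 + k ι)) = n/(p-1) + O(log n)` -/
lemma val_A_bound (hp : p.Prime) (h2 : 2 < p) {J : ℕ} {ι : ℤ} (h : (p : ℤ) ^ J ∣ ι ^ 2 + 1) {n : ℕ}
    (hJ : n ^ 2 + 1 < p ^ J) :
    |(padicValInt p (A ι n) : ℝ) - n / (p - 1)| ≤ 2 * Nat.log p (n ^ 2 + 1) + 1 := by
  have hp' : (3 : ℝ) ≤ p := by exact_mod_cast h2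
  rw [val_A hp h2 h hJ]
  set L := Nat.log p (n ^ 2 + 1) with hL
  push_cast
  have hterm : ∀ j ∈ Icc 1 L, |((((range (n + 1)).filter fun k : ℕ => ((p : ℤ) ^ j) ∣ (k : ℤ) - ι).card : ℕ) : ℝ) -
      n / (p : ℝ) ^ j| ≤ 2 := by
    intro j _
    obtain ⟨h3, h4⟩ := count_bound (p ^ j) (by have := hp.pos; positivity) ι (n + 1)
    push_cast at h3 h4
    set c := ((range (n + 1)).filter fun k : ℕ => ((p : ℤ) ^ j) ∣ (k : ℤ) - ι).card with hc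
    have h5 : (((n + 1) / p ^ j : ℕ) : ℝ) ≤ ((n + 1 : ℕ) : ℝ) / ((p ^ j : ℕ) : ℝ) := Nat.cast_div_le
    have h6 : ((n + 1 : ℕ) : ℝ) / ((p ^ j : ℕ) : ℝ) < (((n + 1) / p ^ j : ℕ) : ℝ) + 1 := by
      have hpos : (0 : ℝ) < ((p ^ j : ℕ) : ℝ) := by
        have := hp.pos
        positivity
      rw [div_lt_iff₀ hpos]
      have := Nat.lt_mul_div_succ (n + 1) (show 0 < p ^ j by have := hp.pos; positivity)
      calc ((n + 1 : ℕ) : ℝ) < ((p ^ j * ((n + 1) / p ^ j + 1) : ℕ) : ℝ) := by exact_mod_cast this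
        _ = _ := by push_cast; ring
    have h7 : (((n + 1) / p ^ j : ℕ) : ℝ) ≤ c := by exact_mod_cast h3
    have h8 : (c : ℝ) ≤ (((n + 1) / p ^ j : ℕ) : ℝ) + 1 := by exact_mod_cast h4
    have h9 : ((n + 1 : ℕ) : ℝ) / ((p ^ j : ℕ) : ℝ) = n / (p : ℝ) ^ j + 1 / (p : ℝ) ^ j := by
      push_cast; ring
    have h10 : 1 / (p : ℝ) ^ j ≤ 1 := by
      rw [div_le_one (by positivity)]
      exact one_le_pow₀ (by linarith)
    have h11 : 0 ≤ 1 / (p : ℝ) ^ j := by positivity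
    rw [abs_le]
    constructor <;> linarith
  have hsum : |∑ j ∈ Icc 1 L, ((((range (n + 1)).filter fun k : ℕ => ((p : ℤ) ^ j) ∣ (k : ℤ) - ι).card : ℕ) : ℝ) -
      ∑ j ∈ Icc 1 L, (n : ℝ) / (p : ℝ) ^ j| ≤ 2 * L := by
    rw [← sum_sub_distrib]
    calc _ ≤ ∑ j ∈ Icc 1 L, |((((range (n + 1)).filter fun k : ℕ => ((p : ℤ) ^ j) ∣ (k : ℤ) - ι).card : ℕ) : ℝ) -
      n / (p : ℝ) ^ j| := abs_sum_le_sum_abs _ _
      _ ≤ ∑ j ∈ Icc 1 L, (2 : ℝ) := sum_le_sum hterm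
      _ = 2 * L := by simp; ring
  rw [geom (by omega)] at hsum
  have htail : 0 ≤ (n : ℝ) / ((p - 1) * (p : ℝ) ^ L) ∧ (n : ℝ) / ((p - 1) * (p : ℝ) ^ L) ≤ 1 := by
    have hpos : (0 : ℝ) < (p - 1) * (p : ℝ) ^ L := mul_pos (by linarith) (by positivity)
    refine ⟨by positivity, ?_⟩
    rw [div_le_one hpos]
    have h3 : n ^ 2 + 1 < p ^ (L + 1) := Nat.lt_pow_succ_log_self hp.one_lt _
    have h4 : ((n : ℝ) ^ 2 + 1) < (p : ℝ) ^ L * p := by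
      rw [← pow_succ]
      exact_mod_cast h3
    have h5 : (p : ℝ) ≤ 2 * (p - 1) := by linarith
    have h6 : (p : ℝ) ^ L * p ≤ 2 * ((p - 1) * (p : ℝ) ^ L) := by
      nlinarith [show (0 : ℝ) < (p : ℝ) ^ L by positivity]
    nlinarith [sq_nonneg ((n : ℝ) - 1)]
  rw [abs_le] at hsum ⊢
  constructor <;> linarith [hsum.1, hsum.2, htail.1, htail.2]

end Pool.Agent.MP_054fa1_nt
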